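import Pool.Agent.K1H76.OM.Stm

/-!
# Project OM, pieces GG (hyperbola method) and HG (convolution with a small function)
-/

namespace Pool.Agent.K1H61.OM

open Finset Pool.Agent.K1H76.OM

theorem icc_ioc (N : ℕ) : Icc 1 N = Ioc 0 N := by
  ext n
  simp only [mem_Icc, mem_Ioc]
  omega

/-- truncation -/
noncomputable def tr (f : ArithmeticFunction ℝ) (Y : ℕ) : ArithmeticFunction ℝ :=
  ⟨fun n => if n ≤ Y then f n else 0, by simp⟩

theorem tr_apply (f : ArithmeticFunction ℝ) (Y n : ℕ) :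
    tr f Y n = if n ≤ Y then f n else 0 := rfl

theorem sum_split (f g : ArithmeticFunction ℝ) (N Y : ℕ) (h2 : N < (Y + 1) * (Y + 1)) :
    ∑ n ∈ Ioc 0 N, (f * g) n =
      ∑ n ∈ Ioc 0 N, (tr f Y * g) n + ∑ n ∈ Ioc 0 N, (tr g Y * f) n -
        ∑ n ∈ Ioc 0 N, (tr f Y * tr g Y) n := by
  rw [mul_comm (tr g Y) f]
  rw [ArithmeticFunction.sum_Ioc_mul_eq_sum_prod_filter,
    ArithmeticFunction.sum_Ioc_mul_eq_sum_prod_filter,
    ArithmeticFunction.sum_Ioc_mul_eq_sum_prod_filter,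
    ArithmeticFunction.sum_Ioc_mul_eq_sum_prod_filter, ← sum_add_distrib, ← sum_sub_distrib]
  refine sum_congr rfl fun x hx => ?_
  simp only [mem_filter, mem_product, mem_Ioc] at hx
  rw [tr_apply, tr_apply]
  by_cases h1 : x.1 ≤ Y
  · rw [if_pos h1]; ring
  · by_cases h3 : x.2 ≤ Y
    · rw [if_pos h3, if_neg h1]; ring
    · exfalso
      have := Nat.mul_le_mul (Nat.succ_le_of_lt (not_le.mp h1)) (Nat.succ_le_of_lt (not_le.mp h3))
      simp only [Nat.succ_eq_add_one] at this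
      omega

theorem tr_bound (f g : ArithmeticFunction ℝ) (hf : ∀ n, |f n| ≤ 1) (N Y : ℕ) (hY : Y ≤ N)
    (B : ℕ → ℝ) (hB : ∀ n, 1 ≤ n → n ≤ Y → |∑ m ∈ Ioc 0 (N / n), g m| ≤ B n) :
    |∑ n ∈ Ioc 0 N, (tr f Y * g) n| ≤ ∑ n ∈ Ioc 0 Y, B n := by
  rw [ArithmeticFunction.sum_Ioc_mul_eq_sum_sum]
  calc |∑ n ∈ Ioc 0 N, tr f Y n * ∑ m ∈ Ioc 0 (N / n), g m|
      ≤ ∑ n ∈ Ioc 0 N, |tr f Y n * ∑ m ∈ Ioc 0 (N / n), g m| := abs_sum_le_sum_abs _ _
    _ = ∑ n ∈ Ioc 0 Y, |tr f Y n * ∑ m ∈ Ioc 0 (N / n), g m| := by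
        symm
        refine sum_subset (fun n hn => ?_) (fun n _ hn' => ?_)
        · simp only [mem_Ioc] at hn ⊢
          omega
        · simp only [mem_Ioc, not_and, not_le] at hn' 
          rw [tr_apply, if_neg, zero_mul, abs_zero]
          rename_i h
          simp only [mem_Ioc] at h
          have := hn' h.1
          omega
    _ ≤ ∑ n ∈ Ioc 0 Y, B n := by
        refine sum_le_sum fun n hn => ?_
        simp only [mem_Ioc] at hn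
        rw [abs_mul, tr_apply, if_pos hn.2]
        calc |f n| * |∑ m ∈ Ioc 0 (N / n), g m| ≤ 1 * |∑ m ∈ Ioc 0 (N / n), g m| := by
              gcongr
              exact hf n
          _ ≤ B n := by rw [one_mul]; exact hB n hn.1 hn.2

theorem log_half {x u : ℝ} (hx : 1 ≤ x) (hu : √x ≤ u) : (1 + Real.log x) / 2 ≤ 1 + Real.log u := by
  have h0 : 0 < √x := Real.sqrt_pos.mpr (by linarith)
  have h1 : Real.log (√x) ≤ Real.log u := Real.log_le_log h0 hu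
  rw [Real.log_sqrt (by linarith)] at h1
  linarith

theorem good_bound (g : ArithmeticFunction ℝ) (C : ℝ) (hC : 0 ≤ C) (A : ℕ)
    (hg : ∀ x : ℝ, 1 ≤ x → |∑ n ∈ Icc 1 ⌊x⌋₊, g n| ≤ C * x / (1 + Real.log x) ^ A)
    (x : ℝ) (hx : 1 ≤ x) (u : ℝ) (hu : √x ≤ u) :
    |∑ n ∈ Ioc 0 ⌊u⌋₊, g n| ≤ C * 2 ^ A * u / (1 + Real.log x) ^ A := by
  have h1 : 1 ≤ u := le_trans (Real.one_le_sqrt.mpr hx) hu
  have h2 := hg u h1
  rw [icc_ioc] at h2
  refine h2.trans ?_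
  have h3 := log_half hx hu
  have h4 : 0 ≤ Real.log x := Real.log_nonneg hx
  have h5 : ((1 + Real.log x) / 2) ^ A ≤ (1 + Real.log u) ^ A := by gcongr
  have h6 : (0 : ℝ) < ((1 + Real.log x) / 2) ^ A := by positivity
  calc C * u / (1 + Real.log u) ^ A ≤ C * u / ((1 + Real.log x) / 2) ^ A := by gcongr
    _ = C * 2 ^ A * u / (1 + Real.log x) ^ A := by
        rw [div_pow]
        field_simp

theorem hyp_part (f g : ArithmeticFunction ℝ) (hf : ∀ n, |f n| ≤ 1) (C : ℝ) (hC : 0 ≤ C) (A : ℕ)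
    (hg : ∀ x : ℝ, 1 ≤ x → |∑ n ∈ Icc 1 ⌊x⌋₊, g n| ≤ C * x / (1 + Real.log x) ^ (A + 1))
    (x : ℝ) (hx : 1 ≤ x) :
    |∑ n ∈ Ioc 0 ⌊x⌋₊, (tr f ⌊√x⌋₊ * g) n| ≤ C * 2 ^ (A + 1) * x / (1 + Real.log x) ^ A := by
  have hx0 : 0 ≤ x := by linarith
  have h4 : 0 ≤ Real.log x := Real.log_nonneg hx
  have hsx : √x ≤ x := by
    rw [Real.sqrt_le_left hx0]
    nlinarith
  have hYN : ⌊√x⌋₊ ≤ ⌊x⌋₊ := Nat.floor_le_floor hsx
  refine (tr_bound f g hf ⌊x⌋₊ ⌊√x⌋₊ hYN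
    (fun n => C * 2 ^ (A + 1) * x / (1 + Real.log x) ^ (A + 1) * (n : ℝ)⁻¹) ?_).trans ?_
  · intro n hn1 hn2
    have hn0 : (0 : ℝ) < n := by exact_mod_cast hn1
    have hnx : (n : ℝ) ≤ √x := by
      rwa [Nat.le_floor_iff (Real.sqrt_nonneg x)] at hn2
    have hu : √x ≤ x / n := by
      rw [le_div_iff₀ hn0]
      calc √x * n ≤ √x * √x := by gcongr
        _ = x := Real.mul_self_sqrt hx0
    have := good_bound g C hC (A + 1) hg x hx (x / n) hu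
    rw [Nat.floor_div_natCast] at this
    refine this.trans (le_of_eq ?_)
    ring
  · rw [← mul_sum, ← icc_ioc]
    have h5 : ∑ n ∈ Icc 1 ⌊√x⌋₊, ((n : ℝ))⁻¹ ≤ 1 + Real.log x := by
      have h6 := harmonic_floor_le_one_add_log (√x) (Real.one_le_sqrt.mpr hx)
      rw [harmonic_eq_sum_Icc, Rat.cast_sum] at h6
      simp only [Rat.cast_inv, Rat.cast_natCast] at h6
      refine h6.trans ?_
      rw [Real.log_sqrt hx0]
      linarith
    calc C * 2 ^ (A + 1) * x / (1 + Real.log x) ^ (A + 1) * ∑ n ∈ Icc 1 ⌊√x⌋₊, ((n : ℝ))⁻¹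
        ≤ C * 2 ^ (A + 1) * x / (1 + Real.log x) ^ (A + 1) * (1 + Real.log x) := by gcongr
      _ = C * 2 ^ (A + 1) * x / (1 + Real.log x) ^ A := by
          rw [pow_succ (1 + Real.log x)]
          have : (1 + Real.log x) ≠ 0 := by positivity
          field_simp

theorem hyp_sq (f g : ArithmeticFunction ℝ) (hf : ∀ n, |f n| ≤ 1) (C : ℝ) (hC : 0 ≤ C) (A : ℕ)
    (hg : ∀ x : ℝ, 1 ≤ x → |∑ n ∈ Icc 1 ⌊x⌋₊, g n| ≤ C * x / (1 + Real.log x) ^ (A + 1))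
    (x : ℝ) (hx : 1 ≤ x) :
    |∑ n ∈ Ioc 0 ⌊x⌋₊, (tr f ⌊√x⌋₊ * tr g ⌊√x⌋₊) n| ≤
      C * 2 ^ (A + 1) * x / (1 + Real.log x) ^ A := by
  have hx0 : 0 ≤ x := by linarith
  have h4 : 0 ≤ Real.log x := Real.log_nonneg hx
  have hsx : √x ≤ x := by
    rw [Real.sqrt_le_left hx0]
    nlinarith
  have hYN : ⌊√x⌋₊ ≤ ⌊x⌋₊ := Nat.floor_le_floor hsx
  refine (tr_bound f (tr g ⌊√x⌋₊) hf ⌊x⌋₊ ⌊√x⌋₊ hYN
    (fun _ => C * 2 ^ (A + 1) * √x / (1 + Real.log x) ^ (A + 1)) ?_).trans ?_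
  · intro n hn1 hn2
    have hn0 : (0 : ℝ) < n := by exact_mod_cast hn1
    have hnx : (n : ℝ) ≤ √x := by
      rwa [Nat.le_floor_iff (Real.sqrt_nonneg x)] at hn2
    have hu : √x ≤ x / n := by
      rw [le_div_iff₀ hn0]
      calc √x * n ≤ √x * √x := by gcongr
        _ = x := Real.mul_self_sqrt hx0
    have hle : ⌊√x⌋₊ ≤ ⌊x⌋₊ / n := by
      rw [← Nat.floor_div_natCast]
      exact Nat.floor_le_floor hu
    have e1 : ∑ m ∈ Ioc 0 (⌊x⌋₊ / n), tr g ⌊√x⌋₊ m = ∑ m ∈ Ioc 0 ⌊√x⌋₊, g m := by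
      symm
      rw [← sum_subset (s₁ := Ioc 0 ⌊√x⌋₊) (s₂ := Ioc 0 (⌊x⌋₊ / n))]
      · refine sum_congr rfl fun m hm => ?_
        simp only [mem_Ioc] at hm
        rw [tr_apply, if_pos hm.2]
      · intro m hm
        simp only [mem_Ioc] at hm ⊢
        omega
      · intro m hm hm'
        simp only [mem_Ioc] at hm hm'
        rw [tr_apply, if_neg (by omega)]
    rw [e1]
    exact good_bound g C hC (A + 1) hg x hx (√x) le_rfl
  · rw [sum_const, Nat.card_Ioc, Nat.sub_zero, nsmul_eq_mul]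
    have h1 : ((⌊√x⌋₊ : ℕ) : ℝ) ≤ √x := Nat.floor_le (Real.sqrt_nonneg x)
    have h2 : (1 + Real.log x) ^ A ≤ (1 + Real.log x) ^ (A + 1) :=
      pow_le_pow_right₀ (by linarith) (by omega)
    have h3 : (0 : ℝ) < (1 + Real.log x) ^ A := by positivity
    calc ((⌊√x⌋₊ : ℕ) : ℝ) * (C * 2 ^ (A + 1) * √x / (1 + Real.log x) ^ (A + 1))
        ≤ √x * (C * 2 ^ (A + 1) * √x / (1 + Real.log x) ^ (A + 1)) := by gcongr
      _ = C * 2 ^ (A + 1) * (√x * √x) / (1 + Real.log x) ^ (A + 1) := by ring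
      _ = C * 2 ^ (A + 1) * x / (1 + Real.log x) ^ (A + 1) := by rw [Real.mul_self_sqrt hx0]
      _ ≤ C * 2 ^ (A + 1) * x / (1 + Real.log x) ^ A := by gcongr

/-- GG: hyperbola method -/
theorem t_GG : S_GG := by
  intro f g hf hg hF hG A
  obtain ⟨C1, h1⟩ := hF (A + 1)
  obtain ⟨C2, h2⟩ := hG (A + 1)
  let C := max 0 (max C1 C2)
  have hC : 0 ≤ C := le_max_left _ _
  have hC1 : C1 ≤ C := (le_max_left _ _).trans (le_max_right _ _)
  have hC2 : C2 ≤ C := (le_max_right _ _).trans (le_max_right _ _)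
  have h1' : ∀ x : ℝ, 1 ≤ x → |∑ n ∈ Icc 1 ⌊x⌋₊, f n| ≤ C * x / (1 + Real.log x) ^ (A + 1) := by
    intro x hx
    have h4 : 0 ≤ Real.log x := Real.log_nonneg hx
    refine (h1 x hx).trans ?_
    gcongr
  have h2' : ∀ x : ℝ, 1 ≤ x → |∑ n ∈ Icc 1 ⌊x⌋₊, g n| ≤ C * x / (1 + Real.log x) ^ (A + 1) := by
    intro x hx
    have h4 : 0 ≤ Real.log x := Real.log_nonneg hx
    refine (h2 x hx).trans ?_
    gcongr
  refine ⟨3 * (C * 2 ^ (A + 1)), fun x hx => ?_⟩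
  have hx0 : 0 ≤ x := by linarith
  have hY : ⌊x⌋₊ < (⌊√x⌋₊ + 1) * (⌊√x⌋₊ + 1) := by
    rw [Nat.floor_lt hx0]
    push_cast
    have := Nat.lt_floor_add_one (√x)
    calc x = √x * √x := (Real.mul_self_sqrt hx0).symm
      _ < ((⌊√x⌋₊ : ℝ) + 1) * ((⌊√x⌋₊ : ℝ) + 1) := by
          have h0 := Real.sqrt_nonneg x
          nlinarith
  rw [icc_ioc, sum_split f g ⌊x⌋₊ ⌊√x⌋₊ hY]
  have e1 := hyp_part f g hf C hC A h2' x hx
  have e2 := hyp_part g f hg C hC A h1' x hx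
  have e3 := hyp_sq f g hf C hC A h2' x hx
  have e4 : 3 * (C * 2 ^ (A + 1)) * x / (1 + Real.log x) ^ A =
    C * 2 ^ (A + 1) * x / (1 + Real.log x) ^ A + C * 2 ^ (A + 1) * x / (1 + Real.log x) ^ A +
      C * 2 ^ (A + 1) * x / (1 + Real.log x) ^ A := by ring
  rw [e4]
  rw [abs_le] at e1 e2 e3 ⊢
  constructor <;> linarith [e1.1, e1.2, e2.1, e2.2, e3.1, e3.2]

theorem log_pow_le (A : ℕ) : ∃ K : ℝ, 0 ≤ K ∧ ∀ x : ℝ, 1 ≤ x →
    (1 + Real.log x) ^ A ≤ K * x ^ (1 / 20 : ℝ) := by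
  have hδ : (0 : ℝ) < 1 / (20 * ((A : ℝ) + 1)) := by positivity
  refine ⟨(1 + (1 / (20 * ((A : ℝ) + 1)))⁻¹) ^ A, by positivity, fun x hx => ?_⟩
  have hx0 : 0 ≤ x := by linarith
  have h1 := Real.log_le_rpow_div hx0 hδ
  have h2 : (1 : ℝ) ≤ x ^ (1 / (20 * ((A : ℝ) + 1))) := Real.one_le_rpow hx hδ.le
  have h3 : 1 + Real.log x ≤ (1 + (1 / (20 * ((A : ℝ) + 1)))⁻¹) * x ^ (1 / (20 * ((A : ℝ) + 1))) := by
    rw [add_mul, one_mul]
    refine add_le_add h2 (h1.trans (le_of_eq ?_))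
    rw [div_eq_mul_inv, mul_comm]
  have h4 : 0 ≤ Real.log x := Real.log_nonneg hx
  calc (1 + Real.log x) ^ A
      ≤ ((1 + (1 / (20 * ((A : ℝ) + 1)))⁻¹) * x ^ (1 / (20 * ((A : ℝ) + 1)))) ^ A := by gcongr
    _ = (1 + (1 / (20 * ((A : ℝ) + 1)))⁻¹) ^ A * x ^ (1 / (20 * ((A : ℝ) + 1)) * A) := by
        rw [mul_pow, ← Real.rpow_natCast (x ^ (1 / (20 * ((A : ℝ) + 1)))), ← Real.rpow_mul hx0]
    _ ≤ (1 + (1 / (20 * ((A : ℝ) + 1)))⁻¹) ^ A * x ^ (1 / 20 : ℝ) := by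
        gcongr
        rw [div_mul_eq_mul_div, one_mul, div_le_div_iff₀ (by positivity) (by norm_num)]
        nlinarith

/-- HG: convolution with a small function -/
theorem t_HG : S_HG := by
  intro f h hh hF A
  obtain ⟨C1, h1⟩ := hF A
  obtain ⟨C0, h0⟩ := hF 0
  obtain ⟨K, hK0, hK⟩ := log_pow_le A
  let C := max 0 C1
  have hC : 0 ≤ C := le_max_left _ _
  have hC1 : C1 ≤ C := le_max_right _ _
  let D := max 0 C0
  have hD : 0 ≤ D := le_max_left _ _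
  have hD1 : C0 ≤ D := le_max_right _ _
  have h1' : ∀ x : ℝ, 1 ≤ x → |∑ n ∈ Icc 1 ⌊x⌋₊, f n| ≤ C * x / (1 + Real.log x) ^ A := by
    intro x hx
    have h4 : 0 ≤ Real.log x := Real.log_nonneg hx
    refine (h1 x hx).trans ?_
    gcongr
  have h0' : ∀ x : ℝ, 1 ≤ x → |∑ n ∈ Ioc 0 ⌊x⌋₊, f n| ≤ D * x := by
    intro x hx
    have := h0 x hx
    rw [icc_ioc, pow_zero, div_one] at this
    refine this.trans ?_
    gcongr
  refine ⟨(C * 2 ^ A + D * K) * ∑' n : ℕ, |h n| * (n : ℝ) ^ (-(9 / 10) : ℝ), fun x hx => ?_⟩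
  have hx0 : 0 ≤ x := by linarith
  have hlog : 0 ≤ Real.log x := Real.log_nonneg hx
  have hL : (0 : ℝ) < (1 + Real.log x) ^ A := by positivity
  have key : ∀ n : ℕ, 1 ≤ n → (n : ℝ) ≤ x → |∑ m ∈ Ioc 0 (⌊x⌋₊ / n), f m| ≤
      (C * 2 ^ A + D * K) * x / (1 + Real.log x) ^ A * (n : ℝ) ^ (-(9 / 10) : ℝ) := by
    intro n hn1 hnx
    have hn0 : (0 : ℝ) < n := by exact_mod_cast hn1
    have hn1' : (1 : ℝ) ≤ n := by exact_mod_cast hn1
    rw [← Nat.floor_div_natCast]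
    by_cases hs : (n : ℝ) ≤ √x
    · have hu : √x ≤ x / n := by
        rw [le_div_iff₀ hn0]
        calc √x * n ≤ √x * √x := by gcongr
          _ = x := Real.mul_self_sqrt hx0
      have e1 := good_bound f C hC A h1' x hx (x / n) hu
      refine e1.trans ?_
      have e2 : (n : ℝ)⁻¹ ≤ (n : ℝ) ^ (-(9 / 10) : ℝ) := by
        rw [← Real.rpow_neg_one]
        exact Real.rpow_le_rpow_of_exponent_le hn1' (by norm_num)
      calc C * 2 ^ A * (x / n) / (1 + Real.log x) ^ A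
          = C * 2 ^ A * x / (1 + Real.log x) ^ A * (n : ℝ)⁻¹ := by
            rw [div_eq_mul_inv x]; ring
        _ ≤ (C * 2 ^ A + D * K) * x / (1 + Real.log x) ^ A * (n : ℝ) ^ (-(9 / 10) : ℝ) := by
            gcongr
            have : 0 ≤ D * K := by positivity
            linarith
    · push Not at hs
      have hu : 1 ≤ x / n := by rwa [le_div_iff₀ hn0, one_mul]
      refine (h0' (x / n) hu).trans ?_
      have e2 : (n : ℝ)⁻¹ = (n : ℝ) ^ (-(9 / 10) : ℝ) * (n : ℝ) ^ (-(1 / 10) : ℝ) := by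
        rw [← Real.rpow_add hn0, ← Real.rpow_neg_one]
        norm_num
      have e3 : (n : ℝ) ^ (-(1 / 10) : ℝ) ≤ x ^ (-(1 / 20) : ℝ) := by
        have e4 : (√x) ^ (-(1 / 10) : ℝ) = x ^ (-(1 / 20) : ℝ) := by
          rw [Real.sqrt_eq_rpow, ← Real.rpow_mul hx0]
          norm_num
        rw [← e4]
        exact Real.rpow_le_rpow_of_nonpos (Real.sqrt_pos.mpr (by linarith)) hs.le (by norm_num)
      have e5 : x ^ (-(1 / 20) : ℝ) ≤ K / (1 + Real.log x) ^ A := by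
        rw [le_div_iff₀ hL]
        calc x ^ (-(1 / 20) : ℝ) * (1 + Real.log x) ^ A
            ≤ x ^ (-(1 / 20) : ℝ) * (K * x ^ (1 / 20 : ℝ)) := by
              gcongr
              exact hK x hx
          _ = K * (x ^ (-(1 / 20) : ℝ) * x ^ (1 / 20 : ℝ)) := by ring
          _ = K := by
              rw [← Real.rpow_add (by linarith)]
              norm_num
      calc D * (x / n) = D * x * ((n : ℝ) ^ (-(9 / 10) : ℝ) * (n : ℝ) ^ (-(1 / 10) : ℝ)) := by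
            rw [← e2]; ring
        _ ≤ D * x * ((n : ℝ) ^ (-(9 / 10) : ℝ) * (K / (1 + Real.log x) ^ A)) := by
            gcongr
            exact e3.trans e5
        _ = (D * K) * x / (1 + Real.log x) ^ A * (n : ℝ) ^ (-(9 / 10) : ℝ) := by ring
        _ ≤ (C * 2 ^ A + D * K) * x / (1 + Real.log x) ^ A * (n : ℝ) ^ (-(9 / 10) : ℝ) := by
            gcongr
            have : 0 ≤ C * 2 ^ A := by positivity
            linarith
  rw [icc_ioc, mul_comm f h, ArithmeticFunction.sum_Ioc_mul_eq_sum_sum]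
  calc |∑ n ∈ Ioc 0 ⌊x⌋₊, h n * ∑ m ∈ Ioc 0 (⌊x⌋₊ / n), f m|
      ≤ ∑ n ∈ Ioc 0 ⌊x⌋₊, |h n * ∑ m ∈ Ioc 0 (⌊x⌋₊ / n), f m| := abs_sum_le_sum_abs _ _
    _ ≤ ∑ n ∈ Ioc 0 ⌊x⌋₊, (C * 2 ^ A + D * K) * x / (1 + Real.log x) ^ A *
          (|h n| * (n : ℝ) ^ (-(9 / 10) : ℝ)) := by
        refine sum_le_sum fun n hn => ?_
        simp only [mem_Ioc] at hn
        rw [abs_mul]
        have hnx : (n : ℝ) ≤ x := (Nat.le_floor_iff hx0).mp hn.2
        calc |h n| * |∑ m ∈ Ioc 0 (⌊x⌋₊ / n), f m|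
            ≤ |h n| * ((C * 2 ^ A + D * K) * x / (1 + Real.log x) ^ A *
              (n : ℝ) ^ (-(9 / 10) : ℝ)) := by
              gcongr
              exact key n hn.1 hnx
          _ = _ := by ring
    _ = (C * 2 ^ A + D * K) * x / (1 + Real.log x) ^ A *
          ∑ n ∈ Ioc 0 ⌊x⌋₊, |h n| * (n : ℝ) ^ (-(9 / 10) : ℝ) := by rw [mul_sum]
    _ ≤ (C * 2 ^ A + D * K) * x / (1 + Real.log x) ^ A *
          ∑' n : ℕ, |h n| * (n : ℝ) ^ (-(9 / 10) : ℝ) := by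
        gcongr
        exact hh.sum_le_tsum _ (fun n _ => by positivity)
    _ = _ := by ring

end Pool.Agent.K1H61.OM
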